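import Pool.Agent.H23.CoH3

namespace Pool.Agent.Results.MP_ce3880_al.Extension

/-- A group is co-hopfian if every injective endomorphism is surjective. -/
def CoHopfian (G : Type) [Group G] : Prop :=
  ∀ f : G →* G, Function.Injective f → Function.Surjective f

theorem result : ∃ (G : Type) (_ : Group G) (H : Subgroup G),
    Group.IsFinitelyPresented G ∧ Group.FG G ∧ H.FiniteIndex ∧ CoHopfian H ∧ ¬ CoHopfian G := by
  refine ⟨H23.CoH.S, inferInstance, H23.CoH.T, inferInstance, inferInstance, inferInstance,
    H23.CoH.T_cohopf, fun h => ?_⟩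
  obtain ⟨f, h1, h2⟩ := H23.CoH.S_not
  exact h2 (h f h1)

end Pool.Agent.Results.MP_ce3880_al.Extension
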